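import Pool.Agent.Helper64.PermProd

set_option autoImplicit false

namespace Pool.Agent.Results.MP_d308b2_co.OwnStatement

/-- the set `𝒫` of all permutations of lengths `n ≥ 1` -/
structure P where
  len : ℕ
  pos : 1 ≤ len
  perm : Equiv.Perm (Fin len)

/-- the set of positions `s` is an occurrence of `σ` in `τ`: the entries of `τ` at the positions
`i_1 < ... < i_k` of `s` are order-isomorphic to `σ` -/
def IsOcc (σ τ : P) (s : Set (Fin τ.len)) : Prop :=
  ∃ i : Fin σ.len → Fin τ.len, StrictMono i ∧ Set.range i = s ∧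
    ∀ a b, σ.perm a < σ.perm b ↔ τ.perm (i a) < τ.perm (i b)

/-- the number `ν(σ, τ)` of occurrences of `σ` in `τ` -/
noncomputable def nu (σ τ : P) : ℕ := {s : Set (Fin τ.len) | IsOcc σ τ s}.ncard

/-- the pattern order: `σ ≤ τ` if `σ` occurs in `τ` -/
def le (σ τ : P) : Prop := 1 ≤ nu σ τ

open Classical in
/-- the Moebius function of `𝒫`: `μ(σ,σ) = 1`, `μ(σ,τ) = -∑_{σ ≤ z < τ} μ(σ,z)` for `σ < τ`, and
`μ(σ,τ) = 0` if `σ ≰ τ` (every `z < τ` is shorter than `τ`, so the sum runs over the lengths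
`n < len τ`, `n ≥ 1`, and the permutations `z` of length `n` with `σ ≤ z ≤ τ`) -/
noncomputable def mu (σ τ : P) : ℤ :=
  if σ = τ then 1 else
    if le σ τ then
      - ∑ n : Fin τ.len, ∑ ρ : Equiv.Perm (Fin n),
        (if h : 1 ≤ (n : ℕ) then
          (if le σ ⟨n, h, ρ⟩ ∧ le ⟨n, h, ρ⟩ τ then mu σ ⟨n, h, ρ⟩ else 0) else 0)
    else 0
termination_by τ.len
decreasing_by exact n.2

/-- the underlying permutation in the sigma type of all lengths -/
def raw (σ : P) : Helper64.PP := ⟨σ.len, σ.perm⟩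

lemma raw_inj {σ τ : P} : raw σ = raw τ ↔ σ = τ := by
  constructor
  · intro h
    obtain ⟨n, hn, p⟩ := σ
    obtain ⟨m, hm, q⟩ := τ
    obtain ⟨h1, h2⟩ := Sigma.mk.inj h
    dsimp only at h1
    subst h1
    have := eq_of_heq h2
    dsimp only at this
    rw [this]
  · rintro rfl
    rfl

/-- `ν(σ, τ)` counts the order isomorphic increasing maps -/
lemma nu_eq (σ τ : P) : nu σ τ = {i : Fin σ.len → Fin τ.len | StrictMono i ∧
    ∀ a b, σ.perm a < σ.perm b ↔ τ.perm (i a) < τ.perm (i b)}.ncard := by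
  have himg : {s : Set (Fin τ.len) | IsOcc σ τ s} = Set.range '' {i : Fin σ.len → Fin τ.len |
      StrictMono i ∧ ∀ a b, σ.perm a < σ.perm b ↔ τ.perm (i a) < τ.perm (i b)} := by
    ext s
    constructor
    · rintro ⟨i, h1, h2, h3⟩
      exact ⟨i, ⟨h1, h3⟩, h2⟩
    · rintro ⟨i, ⟨h1, h3⟩, h2⟩
      exact ⟨i, h1, h2, h3⟩
  unfold nu
  rw [himg]
  refine Set.InjOn.ncard_image ?_
  rintro i ⟨hi, _⟩ j ⟨hj, _⟩ hij
  exact (StrictMono.range_inj hi hj).1 hij

lemma le_iff (σ τ : P) : le σ τ ↔ Helper64.PLe (raw σ) (raw τ) := by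
  unfold le
  rw [nu_eq, Nat.one_le_iff_ne_zero, ← Nat.pos_iff_ne_zero, Set.ncard_pos (Set.toFinite _)]
  exact Iff.rfl

open Classical in
lemma mu_eq : ∀ (n : ℕ) (σ τ : P), τ.len = n → mu σ τ = Helper64.mob (raw σ) (raw τ) := by
  intro n
  induction n using Nat.strong_induction_on with
  | _ n ih =>
    intro σ τ hn
    rw [mu, Helper64.mob]
    by_cases h1 : σ = τ
    · rw [if_pos h1, if_pos (raw_inj.2 h1)]
    rw [if_neg h1, if_neg (fun h => h1 (raw_inj.1 h))]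
    by_cases h2 : le σ τ
    · rw [if_pos h2, if_pos ((le_iff σ τ).1 h2)]
      congr 1
      refine Finset.sum_congr rfl fun m _ => Finset.sum_congr rfl fun ρ _ => ?_
      by_cases hm : 1 ≤ (m : ℕ)
      · rw [dif_pos hm]
        have h3 : mu σ ⟨m, hm, ρ⟩ = Helper64.mob (raw σ) ⟨m, ρ⟩ :=
          ih m (by have := m.2; omega) σ ⟨m, hm, ρ⟩ rfl
        rw [h3]
        exact if_congr (and_congr (le_iff _ _) (le_iff _ _)) rfl rfl
      · rw [dif_neg hm, if_neg]
        rintro ⟨h3, _⟩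
        have h4 := h3.card_le
        have h5 := σ.pos
        change σ.len ≤ (m : ℕ) at h4
        omega
    · rw [if_neg h2, if_neg (fun h => h2 ((le_iff σ τ).2 h))]

lemma sg_pos {k : ℕ} (hk : 1 ≤ k) (Z : Fin k → ℕ) (hZ : ∀ i, Z i < 256) :
    1 ≤ (Helper64.PT k Z).1 := by
  have h1 : (Helper64.PT k Z).1 = (Helper64.SS k Z).card := rfl
  rw [h1]
  refine Finset.card_pos.2 ⟨toLex (⟨0, hk⟩, Helper64.grp 0 0), ?_⟩
  rw [Helper64.mem_SS]
  exact Helper64.inA_grp 0 0 (hZ _)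

/-- For every `k ≥ 1` there are permutations `σ`, `τ` such that `σ` occurs exactly once in `τ`
and `μ(σ, τ) = 2 ^ k`. -/
theorem result (k : ℕ) (hk : 1 ≤ k) : ∃ σ τ : P, nu σ τ = 1 ∧ mu σ τ = 2 ^ k := by
  let σ : P := ⟨(Helper64.sg k).1, sg_pos hk _ (fun _ => by norm_num), (Helper64.sg k).2⟩
  let τ : P := ⟨(Helper64.tu k).1, sg_pos hk _ (fun _ => by norm_num), (Helper64.tu k).2⟩
  refine ⟨σ, τ, ?_, ?_⟩
  · rw [nu_eq]
    exact Helper64.unique_occ k
  · rw [mu_eq _ σ τ rfl]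
    exact Helper64.mob_sg_tu k

end Pool.Agent.Results.MP_d308b2_co.OwnStatement
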